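import Mathlib
import Pool.Agent.N646.AC.Bfin

/-!
# Almost all vectors of shifts in a Bohr set of bounded rank

For all `k`, `s` and `ε > 0` there are `M ≥ 1`, `d`, `C` and `ρ, δ > 0` such that for every sufficiently
large `H` there are real numbers `θ_1, ..., θ_d'`, `d' ≤ d`, and a radius `ρ ≤ r ≤ 1` such that the Bohr set

  `B = { b : |b| ≤ H, |exp (2 π i θ_j b) - 1| ≤ r for all j }`

has at least `δ H` elements, and for all but at most `ε |B| ^ k` of the vectors `y ∈ B ^ k` the following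
holds. For every nonsingular integer matrix `T` with entries at most `s` in absolute value, with
`(h_1, ..., h_k) = T y` and `h_0 = 0`, all patterns of primes and composites occur among the numbers
`n + M h_0, n + M h_1, ..., n + M h_k`: for every `J ⊆ {0, ..., k}`, at least `N / (log N) ^ C` of the
`1 ≤ n ≤ 2 N` are such that exactly the numbers `n + M h_i` with `i ∈ J` are prime.

* For every fixed `H ≥ n₀` this holds for one Bohr set `B` and one set of exceptional vectors at arbitrarily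
  large `N`, the same for all the other vectors `y`.
* It holds at every large `N`, uniformly in `n₀ ≤ H ≤ N / M`.

Proof: by the theorem of `Pool.Agent.N646.AC.covU` (containers of the hypergraph of the bad tuples and the
coloured Maynard-Tao theorem of the starting files with the constant `18/5`) there is a set `A` of at least
`H / 5` integers in `[0, H)` such that almost all `(k+1)`-tuples of elements of `A` are good. By Fourier
analysis and an energy increment there is a Bohr set of bounded rank such that for almost all vectors `h` in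
it (and for almost all vectors of every not too small set of vectors in it) `A ∩ (A - h_1) ∩ ... ∩ (A - h_k)`
has at least `c H` elements with a fixed `c > 0`. As the property is translation invariant, such an `h` which
is not good gives `c H` bad tuples of `A`.
-/

set_option autoImplicit false

namespace Pool.Agent.Results.MP_e87c7d_nt.BohrSetsOfShifts

open Filter Finset

open Classical in
/-- the Bohr set of the integers `|b| ≤ H` with `|exp (2πiθb) - 1| ≤ r` for all `θ ∈ Θ` -/
noncomputable def bohrSet (Θ : Finset ℝ) (r : ℝ) (H : ℕ) : Finset ℤ :=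
  (Icc (-(H : ℤ)) H).filter (fun b => ∀ θ ∈ Θ,
    ‖Complex.exp (2 * Real.pi * Complex.I * θ * b) - 1‖ ≤ r)

/-- the set of the vectors with `k` coordinates in `B` -/
def vectors (k : ℕ) (B : Finset ℤ) : Finset (Fin k → ℤ) := Fintype.piFinset (fun _ => B)

/-- the number of the `1 ≤ n ≤ 2 N` such that of the numbers `n, n + M h_1, …, n + M h_k` (with indices
`0, 1, …, k`) exactly those with index in `J` are prime -/
def pattern {k : ℕ} (M : ℕ) (h : Fin k → ℤ) (J : Finset (Fin (k + 1))) (N : ℕ) : ℕ :=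
  ((Icc 1 (2 * N)).filter (fun n : ℕ => ∀ i,
    ((n : ℤ) + M * (Fin.cons 0 h : Fin (k + 1) → ℤ) i).toNat.Prime ↔ i ∈ J)).card

/-- for all nonsingular integer matrices `T` with entries at most `s`, all patterns occur at least
`N / (log N) ^ C` times for the shifts `M h`, `h = T y` -/
def Good {k : ℕ} (s M C N : ℕ) (y : Fin k → ℤ) : Prop :=
  ∀ T : Matrix (Fin k) (Fin k) ℤ, (∀ i j, |T i j| ≤ s) → T.det ≠ 0 →
    ∀ J : Finset (Fin (k + 1)),
      (N : ℝ) / (Real.log N) ^ C ≤ (pattern M (T.mulVec y) J N : ℝ)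

theorem result (k s : ℕ) (ε : ℝ) (hε : 0 < ε) :
    ∃ (M d n₀ C : ℕ) (ρ δ : ℝ), 1 ≤ M ∧ 0 < ρ ∧ 0 < δ ∧
    (∀ H : ℕ, n₀ ≤ H → ∃ (Θ : Finset ℝ) (r : ℝ), Θ.card ≤ d ∧ ρ ≤ r ∧ r ≤ 1 ∧
      δ * H ≤ (bohrSet Θ r H).card ∧
      ∃ 𝒢 ⊆ vectors k (bohrSet Θ r H),
        ((vectors k (bohrSet Θ r H) \ 𝒢).card : ℝ) ≤ ε * ((bohrSet Θ r H).card : ℝ) ^ k ∧
        ∃ᶠ N : ℕ in atTop, ∀ y ∈ 𝒢, Good s M C N y) ∧
    (∀ᶠ N : ℕ in atTop, ∀ H : ℕ, n₀ ≤ H → M * H ≤ N →
      ∃ (Θ : Finset ℝ) (r : ℝ), Θ.card ≤ d ∧ ρ ≤ r ∧ r ≤ 1 ∧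
      δ * H ≤ (bohrSet Θ r H).card ∧
      ∃ 𝒢 ⊆ vectors k (bohrSet Θ r H),
        ((vectors k (bohrSet Θ r H) \ 𝒢).card : ℝ) ≤ ε * ((bohrSet Θ r H).card : ℝ) ^ k ∧
        ∀ y ∈ 𝒢, Good s M C N y) := by
  obtain ⟨M, d, n₀, C, ρ, δ, hM, hρ, hδ, h1, h2⟩ := Pool.Agent.N646.AC.covBF k s ε hε
  exact ⟨M, d, n₀, C, ρ, δ, hM, hρ, hδ, h2, h1⟩

end Pool.Agent.Results.MP_e87c7d_nt.BohrSetsOfShifts
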