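import Pool.Agent.N422.SL.ALL

/-!
# The limits of upper and lower bound sieves for prime k-tuples

Author: helper422.  A sieve of level `Q` replaces the indicator function of the integers `n` for which `n + h`, `h ∈ H`,
`#H = k`, have no prime factor `p ≤ z` by a weight `w(n)`, a combination of functions with periods `d ≤ Q`, which is larger
(upper bound sieve) or smaller (lower bound sieve); then the sum of `w` over an interval is known, and gives a bound.  The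
best known upper bound for the number of prime `k`-tuples is that of Selberg, larger than the conjectured number by the
factor `2^k k!` (level `Q = X`); Selberg's lower bound sieve is positive if `z = Q^(1/s)`, `s > 2k + 0.4454`, `k` large.  For
`k = 1` the limits of all possible sieves are known (Selberg's parity examples); for `k > 1` we know of no result in this
direction besides parity.

Here we prove limits for ALL weights of level `Q`, uniformly in `H`.  (1) The mean of an upper bound sieve weight is at least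
`(1 - ε) (2k/e)^k (log Q)^(-k)` times the singular series, against `2^k k! (log Q)^(-k)` in Selberg's sieve: so Selberg's
upper bound is optimal up to the factor `k! (e/k)^k ~ (2 π k)^(1/2)`.  (2) If only the primes `p ≤ Q^(1/s)` are sifted,
`s < 2k`, the mean is larger than the expected density by the factor `(1 - ε) exp((2k - s)² / (4k))` at least, and (3) in a
lower bound sieve the factor is at most `2 - (1 - ε) exp((2k - s)² / (4k))`.  (4) There is no lower bound sieve with a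
positive main term if `s < 2k - 2 (k log 2)^(1/2)`.  With Selberg's result, the sifting limit in dimension `k` is
`2k + O(k^(1/2))`.

Proof.  Let `f(T)` be the mean of `w` over the `n` for which `T` is the set of the primes `p ≤ z` dividing some `n + h`: a
function of level `1` on a product space, the level of `p` being `u = log p / log Q` (`SL/AR`, helper568).  For `|z| = 1` let
`ξ_u(z) = (1 - s^u z^(-u)) / (1 - s^u z^u)`, `0 < s < 1`, of absolute value `1`.  Let `Z(z)` be the sum of `f` with respect to the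
complex product law with the probabilities `ξ_u(z) ν(p)/p` of `p ∈ T`.  Then `z Z(z)` is analytic in the disc, `Z(s) = f(∅)`
because `ξ_u(s) = 0`, and on the circle `|Z| ≤ ∏_p |1 - ξ_u ν(p)/p| (1 - ν(p)/p)^(-1) E |f|`.  By the inequality of Jensen at the
point `s` (`SL/JA`, helper79), since the average of `Re ξ_u` is `1 - s^(2u)` (`SL/XI`, helper415),
`E |f| ≥ |f(∅)| ∏ (1 - ν(p)/p) exp(∑_p (1 - s^(2u)) ν(p)/p - log 1/s)` (`SL/UBM`, helper7).  The sum over the primes is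
`k Ein(2 τ/s)`, `τ = log 1/s` (`SL/AB`, `SL/RS`, helpers 278, 622), and `Ein(x) ≥ log x + γ`, `Ein(x) ≥ x - x²/4`.  For an upper
bound sieve `E |f|` is the mean of `w` and `f(∅) ≥ 1`; for a lower bound sieve `f ≤ 0` except at `∅`, so `E |f|` is smaller
than `2 |f(∅)| ∏ (1 - ν(p)/p)` if the mean is positive.
-/

set_option autoImplicit false

open Finset

namespace Pool.Agent.Results.MP_e87c7d_nt.SieveLimits

/-- the weight `w(n) = ∑_{d ≤ Q} c_d(n mod d)`, an arbitrary real weight of level `Q` -/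
noncomputable def weight (Q : ℕ) (c : ℕ → ℕ → ℝ) (n : ℕ) : ℝ := ∑ d ∈ Icc 1 Q, c d (n % d)

/-- the mean value of the weight (over the period `Q!`), the main term in sums of `w` over intervals -/
noncomputable def mean (Q : ℕ) (c : ℕ → ℕ → ℝ) : ℝ := (∑ n ∈ range Q.factorial, weight Q c n) / (Q.factorial : ℝ)

/-- the number of residue classes `a` modulo `p` with `p ∣ a + h` for some `h ∈ H` -/
def nu (H : Finset ℕ) (p : ℕ) : ℕ := ((range p).filter (fun a => ∃ h ∈ H, p ∣ a + h)).card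

/-- the numbers `n + h`, `h ∈ H`, have no prime factor `p ≤ Q^(1/s)` -/
def Free (Q : ℕ) (s : ℝ) (H : Finset ℕ) (n : ℕ) : Prop :=
  ∀ p : ℕ, p.Prime → (p : ℝ) ≤ (Q : ℝ) ^ (1 / s) → ∀ h ∈ H, ¬ p ∣ n + h

/-- the primes `p ≤ Q^(1/s)` (for `s ≥ 1`) -/
noncomputable def primes (Q : ℕ) (s : ℝ) : Finset ℕ :=
  (Icc 1 Q).filter (fun p : ℕ => p.Prime ∧ (p : ℝ) ≤ (Q : ℝ) ^ (1 / s))

/-- the density `∏_{p ≤ Q^(1/s)} (1 - ν_H(p)/p)` of the `n` which are `Free` -/
noncomputable def density (Q : ℕ) (s : ℝ) (H : Finset ℕ) : ℝ := ∏ p ∈ primes Q s, (1 - (nu H p : ℝ) / p)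

/-- the singular series, `p ≤ Q`: `∏_{p ≤ Q} (1 - ν_H(p)/p) (1 - 1/p)^(-k)`, `k = #H` -/
noncomputable def series (Q : ℕ) (H : Finset ℕ) : ℝ :=
  ∏ p ∈ (Icc 1 Q).filter Nat.Prime, (1 - (nu H p : ℝ) / p) * ((1 - 1 / (p : ℝ))⁻¹) ^ H.card

/-- Let `k ≥ 1` and `B` real.

(1) For every `ε > 0` there is `Q₀` such that for `Q ≥ Q₀` and every set `H` of `k` integers in `[0, Q^B]`: if `w` is a weight
of level `Q`, `w ≥ 0`, and `w(n) ≥ 1` for all `n` for which the `n + h`, `h ∈ H`, have no prime factor `p ≤ Q`, then the mean of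
`w` is at least `(1 - ε) (2k/(e log Q))^k` times the singular series.

(2) For all `1 ≤ s < 2k` and `ε > 0` there is `Q₀` such that for `Q ≥ Q₀` and `H` as above: if `w` is a weight of level `Q`,
`w ≥ 0`, and `w(n) ≥ 1` for all `n` for which the `n + h` have no prime factor `p ≤ Q^(1/s)`, then the mean of `w` is at least
`(1 - ε) exp((2k - s)²/(4k))` times the density of these `n`.

(3) For all `1 ≤ s < 2k` and `ε > 0` there is `Q₀` such that for `Q ≥ Q₀` and `H` as above: if `w` is a weight of level `Q`,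
`w ≤ 1`, and `w(n) ≤ 0` for all `n` for which some `n + h` has a prime factor `p ≤ Q^(1/s)`, then the mean of `w` is `≤ 0` or
at most `2 - (1 - ε) exp((2k - s)²/(4k))` times the density of the other `n`.

(4) For all `1 ≤ s < 2k - 2 (k log 2)^(1/2)` there is `Q₀` such that for `Q ≥ Q₀` and `H` as above: if `w` is a weight of level
`Q` and `w(n) ≤ 0` for all `n` for which some `n + h` has a prime factor `p ≤ Q^(1/s)`, then the mean of `w` is `≤ 0`. -/
theorem result (k : ℕ) (hk : 1 ≤ k) (B : ℝ) :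
    (∀ ε : ℝ, 0 < ε → ∃ Q₀ : ℕ, ∀ Q : ℕ, Q₀ ≤ Q → ∀ H : Finset ℕ, H.card = k → (∀ h ∈ H, (h : ℝ) ≤ (Q : ℝ) ^ B) →
      ∀ c : ℕ → ℕ → ℝ, (∀ n, 0 ≤ weight Q c n) → (∀ n, Free Q 1 H n → 1 ≤ weight Q c n) →
        (1 - ε) * (2 * k / (Real.exp 1 * Real.log Q)) ^ k * series Q H ≤ mean Q c) ∧
    (∀ s ε : ℝ, 1 ≤ s → s < 2 * k → 0 < ε → ∃ Q₀ : ℕ, ∀ Q : ℕ, Q₀ ≤ Q → ∀ H : Finset ℕ, H.card = k →
      (∀ h ∈ H, (h : ℝ) ≤ (Q : ℝ) ^ B) → ∀ c : ℕ → ℕ → ℝ, (∀ n, 0 ≤ weight Q c n) →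
      (∀ n, Free Q s H n → 1 ≤ weight Q c n) →
        (1 - ε) * Real.exp ((2 * k - s) ^ 2 / (4 * k)) * density Q s H ≤ mean Q c) ∧
    (∀ s ε : ℝ, 1 ≤ s → s < 2 * k → 0 < ε → ∃ Q₀ : ℕ, ∀ Q : ℕ, Q₀ ≤ Q → ∀ H : Finset ℕ, H.card = k →
      (∀ h ∈ H, (h : ℝ) ≤ (Q : ℝ) ^ B) → ∀ c : ℕ → ℕ → ℝ, (∀ n, weight Q c n ≤ 1) →
      (∀ n, ¬ Free Q s H n → weight Q c n ≤ 0) →
        mean Q c ≤ max 0 ((2 - (1 - ε) * Real.exp ((2 * k - s) ^ 2 / (4 * k))) * density Q s H)) ∧
    ∀ s : ℝ, 1 ≤ s → s < 2 * k - 2 * Real.sqrt (k * Real.log 2) → ∃ Q₀ : ℕ, ∀ Q : ℕ, Q₀ ≤ Q →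
      ∀ H : Finset ℕ, H.card = k → (∀ h ∈ H, (h : ℝ) ≤ (Q : ℝ) ^ B) → ∀ c : ℕ → ℕ → ℝ,
      (∀ n, ¬ Free Q s H n → weight Q c n ≤ 0) → mean Q c ≤ 0 := by
  have hmean : ∀ (Q : ℕ) (c : ℕ → ℕ → ℝ), mean Q c = Pool.Agent.N422.SL.mn Q c := fun Q c =>
    Pool.Agent.N422.SL.mn_period Q c
  have hfree : ∀ (Q : ℕ) (s : ℝ) (H : Finset ℕ) (n : ℕ),
      Free Q s H n → ∀ p ∈ Pool.Agent.N422.SL.PY Q (1 / s), ∀ h ∈ H, ¬ p ∣ n + h := by
    intro Q s H n hf p hp h hh
    unfold Pool.Agent.N422.SL.PY at hp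
    rw [mem_filter] at hp
    exact hf p hp.2.1 hp.2.2 h hh
  have hfree' : ∀ (Q : ℕ) (s : ℝ), 1 ≤ s → 1 ≤ Q → ∀ (H : Finset ℕ) (n : ℕ),
      (∀ p ∈ Pool.Agent.N422.SL.PY Q (1 / s), ∀ h ∈ H, ¬ p ∣ n + h) → Free Q s H n := by
    intro Q s hs hQ H n hf p hp hpQ h hh
    refine hf p ?_ h hh
    unfold Pool.Agent.N422.SL.PY
    rw [mem_filter, mem_Icc]
    refine ⟨⟨hp.one_lt.le, ?_⟩, hp, hpQ⟩
    have h1 : (Q : ℝ) ^ (1 / s) ≤ (Q : ℝ) ^ (1 : ℝ) := by
      apply Real.rpow_le_rpow_of_exponent_le (by exact_mod_cast hQ)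
      exact (div_le_one (by linarith)).2 hs
    rw [Real.rpow_one] at h1
    exact_mod_cast hpQ.trans h1
  refine ⟨?_, ?_, ?_, ?_⟩
  · intro ε hε
    obtain ⟨Q₀, h⟩ := Pool.Agent.N422.SL.upper Pool.Agent.N422.SL.ab Pool.Agent.N422.SL.t_EIN
      Pool.Agent.N422.NW.t_VQ k hk ε B hε
    refine ⟨max Q₀ 1, fun Q hQ H hH hHB c h0 h1 => ?_⟩
    have hQ1 : 1 ≤ Q := (le_max_right _ _).trans hQ
    rw [hmean]
    refine le_trans (le_of_eq ?_) (h Q ((le_max_left _ _).trans hQ) H hH hHB c h0 (fun n hn => h1 n ?_))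
    · unfold series Pool.Agent.N422.SL.ssr
      rw [hH]
      rfl
    · apply hfree' Q 1 le_rfl hQ1 H n
      have e : (1 : ℝ) / 1 = 1 := by norm_num
      rw [e, Pool.Agent.N422.SL.PY_one]
      exact hn
  · intro s ε hs1 hs2 hε
    obtain ⟨Q₀, h⟩ := Pool.Agent.N422.SL.upper_s Pool.Agent.N422.SL.ab Pool.Agent.N422.SL.t_EIN k hk s ε B hs1 hs2 hε
    refine ⟨max Q₀ 1, fun Q hQ H hH hHB c h0 h1 => ?_⟩
    have hQ1 : 1 ≤ Q := (le_max_right _ _).trans hQ
    rw [hmean]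
    exact h Q ((le_max_left _ _).trans hQ) H hH hHB c h0 (fun n hn => h1 n (hfree' Q s hs1 hQ1 H n hn))
  · intro s ε hs1 hs2 hε
    obtain ⟨Q₀, h⟩ := Pool.Agent.N422.SL.lower_s Pool.Agent.N422.SL.ab2 Pool.Agent.N422.SL.t_EIN k hk s ε B hs1 hs2 hε
    refine ⟨max Q₀ 1, fun Q hQ H hH hHB c h1 hc => ?_⟩
    have hQ1 : 1 ≤ Q := (le_max_right _ _).trans hQ
    rw [hmean]
    refine h Q ((le_max_left _ _).trans hQ) H hH hHB c (fun n hn => hc n ?_) h1
    intro hf
    obtain ⟨p, hp, h', hh', hd⟩ := hn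
    exact hfree Q s H n hf p hp h' hh' hd
  · intro s hs1 hs2
    obtain ⟨Q₀, h⟩ := Pool.Agent.N422.SL.lower Pool.Agent.N422.SL.ab Pool.Agent.N422.SL.t_EIN k hk s B hs1 hs2
    refine ⟨max Q₀ 1, fun Q hQ H hH hHB c hc => ?_⟩
    have hQ1 : 1 ≤ Q := (le_max_right _ _).trans hQ
    rw [hmean]
    refine h Q ((le_max_left _ _).trans hQ) H hH hHB c (fun n hn => hc n ?_)
    intro hf
    obtain ⟨p, hp, h', hh', hd⟩ := hn
    exact hfree Q s H n hf p hp h' hh' hd

end Pool.Agent.Results.MP_e87c7d_nt.SieveLimits
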