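import Pool.Agent.N422.MK.FIN

/-!
# The Maynard-Tao sieve is optimal among all sums of squares, with the exact constant

Author: helper422.  The weighted method of Goldston-Pintz-Yıldırım and Maynard-Tao finds primes among `n + h`, `h ∈ H`, by
comparing the mean number of them, with respect to a nonnegative sieve weight `w(n)`, `X < n ≤ 2X`, with an integer.  The
weights used are squares of smooth divisor sums of level `R`, and with these the mean can be made as large as
`M_k (log R / log X) - ε`, `k = #H`, where `M_k` is a constant defined by a problem of the calculus of variations on the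
simplex (Maynard, Polymath 8b).

Here it is proved that this is the limit of the method for every `k`, for all sums of squares: `w = ∑_j u_j (∑_{d ≤ R} v_{j,d})²`,
where `v_{j,d}` is an arbitrary function with period `d` and `u_j ≥ 0` an arbitrary function with a period at most `X`, and
for all sets `H` of `k` integers in `[0, X]`, uniformly.  The weight has to be `Good`: it is a combination of level
`Q ≤ X^(1/2) (log X)^(-B)`, of size and mass within powers of `log X` (this is what the theorem of Bombieri and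
Vinogradov needs).  For `R ≤ X^(1/4)` and `#H ≤ 50` the mean is smaller than `1`: no weight of this kind, divisor sum
or not, finds two primes in `n + H`; Polymath reached `50` sites.

Proof.  The theorem of Bombieri and Vinogradov (starting files; reduction: `Pool.Agent.Y829.RP`, helper829) leads to the
mean of `w(n)` over a period with `n + h` free of the primes `p ≤ Q`.  At each large prime a function splits into its mean
value, the components along the `k` sites and a rest (`MK/OP1`, `MK/OP2`); the energy is at least the sum of the energies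
of the components of all words, and the value on the points not hit by the site `j` is bounded by the words where the
components along `j` are summed (`MK/OP3`, `MK/OP4`).  For every set of primes where the word is in the rest, the other
components are a function on `k`-tuples of disjoint sets of primes, which is transported to a step function on the simplex
(`MK/TR` helper391, `MK/CA` helper152, `MK/CB` helper279, `MK/COMB` helper157): this gives the constant `M_k`.  The bound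
`M_k ≤ (k / (k - 1)) log k` of Maynard and Polymath is `MK/LOG` (helper216).
-/

set_option autoImplicit false

open Finset

namespace Pool.Agent.Results.MP_e87c7d_nt.SquareWeightsForTuples

/-- the weight `w(n) = ∑_{d ≤ Q} c_d(n mod d)` -/
noncomputable def weight (Q : ℕ) (c : ℕ → ℕ → ℝ) (n : ℕ) : ℝ := ∑ d ∈ Icc 1 Q, c d (n % d)

/-- `s(d) = ∑_{a mod d} |c_d(a)|` -/
noncomputable def size (c : ℕ → ℕ → ℝ) (d : ℕ) : ℝ := ∑ a ∈ range d, |c d a|

/-- the mass of the weight on `(X, 2X]` -/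
noncomputable def mass (X Q : ℕ) (c : ℕ → ℕ → ℝ) : ℝ := ∑ n ∈ Ioc X (2 * X), weight Q c n

/-- the level `Q` is at most `X^(1/2) (log X)^(-B/2)`, `∑_{d ≤ Q} s(d)² / d ≤ (log X)^K` and the mass is at least
`X / (log X)^K` -/
def Good (K B X Q : ℕ) (c : ℕ → ℕ → ℝ) : Prop :=
  1 ≤ Q ∧ (Q : ℝ) ^ 2 * Real.log X ^ B ≤ X ∧ ∑ d ∈ Icc 1 Q, size c d ^ 2 / d ≤ Real.log X ^ K ∧
    X / Real.log X ^ K ≤ mass X Q c

/-- `w` is a finite sum of squares of functions of level `R` with nonnegative cofactors: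
`w(n) = ∑_j u_j(n) (∑_{d ≤ R} v_{j,d}(n))²`, where `v_{j,d}` is a real function with period `d` and `u_j ≥ 0` has a
period at most `X` -/
def Squares (X R : ℕ) (w : ℕ → ℝ) : Prop :=
  ∃ (m : ℕ) (e : ℕ → ℕ) (u : ℕ → ℕ → ℝ) (v : ℕ → ℕ → ℕ → ℝ),
    (∀ j, 1 ≤ e j ∧ e j ≤ X ∧ (∀ n, u j (n + e j) = u j n) ∧ ∀ n, 0 ≤ u j n) ∧
    (∀ j d n, v j d (n + d) = v j d n) ∧
    ∀ n, w n = ∑ j ∈ range m, u j n * (∑ d ∈ Icc 1 R, v j d n) ^ 2

/-- the number of `h ∈ H` with `n + h` prime -/
noncomputable def primesIn (H : Finset ℕ) (n : ℕ) : ℝ := ((H.filter (fun h => (n + h).Prime)).card : ℝ)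

/-- a bounded measurable function in `m + 1` variables with support in the simplex `x_i ≥ 0`, `∑ x_i ≤ 1` -/
def OnSimplex (m : ℕ) (F : (Fin (m + 1) → ℝ) → ℝ) : Prop :=
  Measurable F ∧ (∃ C : ℝ, ∀ x, |F x| ≤ C) ∧ ∀ x, F x ≠ 0 → (∀ i, 0 ≤ x i) ∧ ∑ i, x i ≤ 1

/-- `∑_j ∫ (∫ F dx_j)²` -/
noncomputable def marginals (m : ℕ) (F : (Fin (m + 1) → ℝ) → ℝ) : ℝ :=
  ∑ j : Fin (m + 1), ∫ y : Fin m → ℝ, (∫ t : ℝ, F (j.insertNth t y)) ^ 2

/-- the constant `M_k` of Maynard and Polymath, `k = m + 1`: the supremum of `∑_j ∫ (∫ F dx_j)² / ∫ F²` -/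
noncomputable def maynard (m : ℕ) : ℝ :=
  sSup {r : ℝ | ∃ F : (Fin (m + 1) → ℝ) → ℝ, OnSimplex m F ∧ 0 < ∫ x, F x ^ 2 ∧ r = marginals m F / ∫ x, F x ^ 2}

theorem ratio_le {k : ℝ} (h1 : 1 < k) (h50 : k ≤ 50) : k * Real.log k / (k - 1) ≤ 50 / 49 * Real.log 50 := by
  have hk0 : 0 < k := by linarith
  have ha : 0 ≤ (1 - 1 / k) * (50 / 49) := by
    have : 1 / k ≤ 1 := by rw [div_le_one hk0]; exact h1.le
    have : 0 ≤ 1 - 1 / k := by linarith
    positivity
  have hb : 0 ≤ 1 - (1 - 1 / k) * (50 / 49) := by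
    have : 1 / 50 ≤ 1 / k := one_div_le_one_div_of_le hk0 h50
    linarith
  have h2 := strictConcaveOn_log_Ioi.concaveOn.2 (show (1 / 50 : ℝ) ∈ Set.Ioi 0 by norm_num)
    (show (1 : ℝ) ∈ Set.Ioi 0 by norm_num) ha hb (by ring)
  simp only [smul_eq_mul] at h2
  have e1 : (1 - 1 / k) * (50 / 49) * (1 / 50) + (1 - (1 - 1 / k) * (50 / 49)) * 1 = 1 / k := by ring
  rw [e1, Real.log_one, mul_zero, add_zero, one_div, one_div, Real.log_inv, Real.log_inv] at h2
  rw [div_le_iff₀ (by linarith)]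
  have h3 : Real.log k ≤ (1 - k⁻¹) * (50 / 49) * Real.log 50 := by linarith
  have h4 := mul_le_mul_of_nonneg_left h3 hk0.le
  refine h4.trans (le_of_eq ?_)
  field_simp

theorem log50 : 50 / 49 * Real.log 50 / 4 ≤ 9985 / 10000 := by
  have h1 : Real.log 5 ≤ 72 / 31 * Real.log 2 := by
    have h2 : Real.log ((5 : ℝ) ^ 31) ≤ Real.log ((2 : ℝ) ^ 72) := Real.log_le_log (by positivity) (by norm_num)
    rw [Real.log_pow, Real.log_pow] at h2
    push_cast at h2
    linarith
  have h2 : Real.log 50 = Real.log 2 + 2 * Real.log 5 := by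
    rw [show (50 : ℝ) = 2 * 5 ^ 2 by norm_num, Real.log_mul (by norm_num) (by norm_num), Real.log_pow]
    norm_num
  have h3 := Real.log_two_lt_d9
  rw [h2]
  linarith

theorem maxi (B : ∀ m : ℕ, 1 ≤ m → ℕ) : ∃ b, ∀ (m : ℕ) (hm : 1 ≤ m), m ≤ 49 → B m hm ≤ b := by
  obtain ⟨f, hf⟩ : ∃ f : ℕ → ℕ, ∀ k, ∀ hk : 1 ≤ k, f k = B k hk :=
    ⟨fun k => if hk : 1 ≤ k then B k hk else 0, fun k hk => dif_pos hk⟩
  refine ⟨∑ k ∈ range 50, f k, fun k hk h50 => ?_⟩
  rw [← hf k hk]
  exact single_le_sum (fun _ _ => Nat.zero_le _) (mem_range.2 (by omega))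

/-- the marginals against the bound of Maynard and Polymath -/
theorem marg_le {m : ℕ} (hm : 1 ≤ m) {F : (Fin (m + 1) → ℝ) → ℝ} (hF : OnSimplex m F) :
    marginals m F ≤ ((m : ℝ) + 1) / m * Real.log ((m : ℝ) + 1) * ∫ x, F x ^ 2 :=
  Pool.Agent.N422.MK.t_LOG m hm F hF.1 hF.2.1 hF.2.2

theorem ratio_mem {m : ℕ} (hm : 1 ≤ m) {r : ℝ} (h : ∃ F : (Fin (m + 1) → ℝ) → ℝ, OnSimplex m F ∧ 0 < ∫ x, F x ^ 2 ∧
    r = marginals m F / ∫ x, F x ^ 2) : r ≤ ((m : ℝ) + 1) / m * Real.log ((m : ℝ) + 1) := by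
  obtain ⟨F, hF, hI, rfl⟩ := h
  rw [div_le_iff₀ hI]
  exact marg_le hm hF

/-- the supremum is a bound -/
theorem mbound {m : ℕ} (hm : 1 ≤ m) : Pool.Agent.N422.MK.MBound m (maynard m) := by
  intro F h1 h2 h3
  have hF : OnSimplex m F := ⟨h1, h2, h3⟩
  have h0 : 0 ≤ ∫ x, F x ^ 2 := MeasureTheory.integral_nonneg fun _ => sq_nonneg _
  rcases h0.lt_or_eq with h4 | h4
  · have h5 : marginals m F / ∫ x, F x ^ 2 ≤ maynard m := by
      refine le_csSup ⟨((m : ℝ) + 1) / m * Real.log ((m : ℝ) + 1), ?_⟩ ⟨F, hF, h4, rfl⟩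
      intro r hr
      exact ratio_mem hm hr
    rw [div_le_iff₀ h4] at h5
    exact h5
  · have h5 := marg_le hm hF
    rw [← h4, mul_zero] at h5
    rw [← h4, mul_zero]
    exact h5

theorem maynard_nn (m : ℕ) : 0 ≤ maynard m := by
  apply Real.sSup_nonneg
  rintro r ⟨F, -, hI, rfl⟩
  refine div_nonneg (sum_nonneg fun j _ => MeasureTheory.integral_nonneg fun _ => sq_nonneg _) hI.le

theorem maynard_le {m : ℕ} (hm : 1 ≤ m) : maynard m ≤ ((m : ℝ) + 1) / m * Real.log ((m : ℝ) + 1) := by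
  apply Real.sSup_le
  · intro r hr
    exact ratio_mem hm hr
  · have h1 : (1 : ℝ) ≤ m := by exact_mod_cast hm
    have h2 : 0 ≤ Real.log ((m : ℝ) + 1) := Real.log_nonneg (by linarith)
    positivity

/-- Let `k = m + 1 ≥ 2` and let `M_k` be the constant of Maynard. For all `K` and `ε > 0` there are `B`, `X₀` such that for
`X ≥ X₀`, every `Good` weight `w` which is a sum of squares of functions of level `R ≤ X` with nonnegative cofactors and
every set `H` of `k` integers in `[0, X]`, the mean number of primes `n + h`, `h ∈ H`, over `X < n ≤ 2X` with respect to `w`,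
is at most `M_k (log R / log X) + ε`. If `R⁴ ≤ X` and `2 ≤ #H ≤ 50` then the mean is at most `1 - 1/1000`. -/
theorem result :
    (∀ (m K : ℕ) (ε : ℝ), 1 ≤ m → 0 < ε → ∃ B X₀ : ℕ, ∀ X : ℕ, X₀ ≤ X → ∀ (Q : ℕ) (c : ℕ → ℕ → ℝ), Good K B X Q c →
      ∀ R : ℕ, R ≤ X → Squares X R (weight Q c) → ∀ H : Finset ℕ, H.card = m + 1 → (∀ h ∈ H, h ≤ X) →
        ∑ n ∈ Ioc X (2 * X), weight Q c n * primesIn H n ≤
          (maynard m * (Real.log R / Real.log X) + ε) * mass X Q c) ∧
    (∀ K : ℕ, ∃ B X₀ : ℕ, ∀ X : ℕ, X₀ ≤ X → ∀ (Q : ℕ) (c : ℕ → ℕ → ℝ), Good K B X Q c →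
      ∀ R : ℕ, R ^ 4 ≤ X → Squares X R (weight Q c) → ∀ H : Finset ℕ, 2 ≤ H.card → H.card ≤ 50 → (∀ h ∈ H, h ≤ X) →
        ∑ n ∈ Ioc X (2 * X), weight Q c n * primesIn H n ≤ (1 - 1 / 1000) * mass X Q c) := by
  have hfirst : ∀ (m K : ℕ) (ε : ℝ), 1 ≤ m → 0 < ε → ∃ B X₀ : ℕ, ∀ X : ℕ, X₀ ≤ X → ∀ (Q : ℕ) (c : ℕ → ℕ → ℝ),
      Good K B X Q c → ∀ R : ℕ, R ≤ X → Squares X R (weight Q c) → ∀ H : Finset ℕ, H.card = m + 1 → (∀ h ∈ H, h ≤ X) →
        ∑ n ∈ Ioc X (2 * X), weight Q c n * primesIn H n ≤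
          (maynard m * (Real.log R / Real.log X) + ε) * mass X Q c := by
    intro m K ε hm hε
    obtain ⟨B, X₀, h⟩ := Pool.Agent.N422.MK.main m K (maynard m) (mbound hm) (maynard_nn m) ε hε
    refine ⟨B, X₀, ?_⟩
    intro X hX Q c hc R hR hsq H hH hHX
    obtain ⟨g1, g2, g3, g4⟩ := hc
    exact h X hX Q R g1 g2 hR c hsq g3 g4 H hH hHX
  refine ⟨hfirst, ?_⟩
  intro K
  choose B X₀ h using fun m : ℕ => fun hm : 1 ≤ m => hfirst m K (1 / 2000) hm (by norm_num)
  obtain ⟨Bm, hBm⟩ := maxi B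
  obtain ⟨Xm, hXm⟩ := maxi X₀
  refine ⟨Bm, max Xm 3, ?_⟩
  intro X hX Q c hc R hR hsq H hH2 hH50 hHX
  obtain ⟨m, hm⟩ : ∃ m, H.card = m + 1 := ⟨H.card - 1, by omega⟩
  have hm1 : 1 ≤ m := by omega
  have hm49 : m ≤ 49 := by omega
  have hX3 : 3 ≤ X := (le_max_right _ _).trans hX
  have hXr : (0 : ℝ) < X := by exact_mod_cast (by omega : 0 < X)
  have hL1 : 1 ≤ Real.log X := by
    rw [Real.le_log_iff_exp_le hXr]
    have := Real.exp_one_lt_d9
    have : (3 : ℝ) ≤ X := by exact_mod_cast hX3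
    linarith
  have hB : B m hm1 ≤ Bm := hBm _ _ hm49
  have hX' : X₀ m hm1 ≤ X := (hXm _ _ hm49).trans ((le_max_left _ _).trans hX)
  obtain ⟨g1, g2, g3, g4⟩ := hc
  have hc' : Good K (B m hm1) X Q c := by
    have e1 : Real.log X ^ B m hm1 ≤ Real.log X ^ Bm := pow_le_pow_right₀ hL1 hB
    have e2 : (Q : ℝ) ^ 2 * Real.log X ^ B m hm1 ≤ (Q : ℝ) ^ 2 * Real.log X ^ Bm :=
      mul_le_mul_of_nonneg_left e1 (sq_nonneg (Q : ℝ))
    exact ⟨g1, e2.trans g2, g3, g4⟩
  have hRX : R ≤ X := by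
    rcases Nat.eq_zero_or_pos R with h1 | h1
    · omega
    · exact (Nat.le_self_pow (by norm_num) R).trans hR
  have h1 := h m hm1 X hX' Q c hc' R hRX hsq H hm hHX
  refine h1.trans (mul_le_mul_of_nonneg_right ?_ ?_)
  · have hk2 : (1 : ℝ) ≤ m := by exact_mod_cast hm1
    have hk49 : (m : ℝ) ≤ 49 := by exact_mod_cast hm49
    have h2 := ratio_le (k := (m : ℝ) + 1) (by linarith) (by linarith)
    have h2' : maynard m ≤ 50 / 49 * Real.log 50 := by
      refine (maynard_le hm1).trans (le_trans (le_of_eq ?_) h2)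
      have e1 : (m : ℝ) + 1 - 1 = m := by ring
      rw [e1]
      ring
    have h3 := log50
    have hlR : Real.log R / Real.log X ≤ 1 / 4 := by
      rw [div_le_iff₀ (by linarith)]
      rcases Nat.eq_zero_or_pos R with h4 | h4
      · rw [h4]
        simp
        linarith
      · have h5 : Real.log ((R : ℝ) ^ 4) ≤ Real.log X := by
          apply Real.log_le_log
          · have : (0 : ℝ) < R := by exact_mod_cast h4
            positivity
          · exact_mod_cast hR
        rw [Real.log_pow] at h5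
        push_cast at h5
        linarith
    have hlR0 : 0 ≤ Real.log R / Real.log X := div_nonneg (Real.log_natCast_nonneg R) (by linarith)
    have h50 : 0 ≤ 50 / 49 * Real.log 50 := mul_nonneg (by norm_num) (Real.log_nonneg (by norm_num))
    have h4 : maynard m * (Real.log R / Real.log X) ≤ 50 / 49 * Real.log 50 * (1 / 4) := mul_le_mul h2' hlR hlR0 h50
    linarith
  · refine sum_nonneg fun n _ => ?_
    obtain ⟨m', e, u, v, hu, -, hwv⟩ := hsq
    rw [hwv]
    exact sum_nonneg fun j _ => mul_nonneg ((hu j).2.2.2 n) (sq_nonneg _)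

end Pool.Agent.Results.MP_e87c7d_nt.SquareWeightsForTuples
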