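import Pool.Agent.N625.GW.F

/-!
# Prime tuples whose shifts have digits which label walks in infinite graphs

The asymptotic formula of Hardy and Littlewood for almost all tuples of shifts, when the shifts run through the integers
whose digits are the labels of the walks between two vertices of a graph, for example of the Cayley graph of a group:
then these are the integers whose digits spell a given element of the group. Such a set can contain as few as `N ^ ε`
integers below `N`, and in general it is not automatic.

Definitions used: `Pool.Agent.H373R2.T7.singZ a z`: the partial product over the primes `p ≤ z` of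
`(1 - ν(p) / p) / (1 - 1 / p) ^ (s + 1)`, where `ν(p)` is the number of `r < p` for which `p` divides
`r (r + a 1) ... (r + a s)`; `Pool.Agent.H373R2.T7.tupleCount a N`: the sum of
`log p * ∏ i, log (p + a i)` over the primes `p ≤ N` for which all `p + a i` are primes;
`Pool.Agent.H373R2.T7.Admissible a`: for every prime `p` there is an `r` such that `p` divides neither
`r` nor any `r + a i`; `Pool.Agent.H560R3.GB.primeTuples a N`: the number of primes `p ≤ N` for which
all `p + a i` are primes.

Method: the exponential sum over the walks is dominated by the iterates of the adjacency operator of the graph, whose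
square is diminished on the diagonal at the places where the frequency has a digit which is not extremal; the norms of
these operators on the cyclic space of a vertex are controlled by the number of the closed walks. The passage from one
random shift to prime tuples is from the starting files (`Pool.Agent.W93`, `Pool.Agent.TH890`) and from
`Pool.Agent.N469.PT.Ws` (helper469).
-/

set_option autoImplicit false

namespace Pool.Agent.Results.MP_e87c7d_nt.WalkShifts

open Finset Pool.Agent.H560R3.GB
open Pool.Agent.H373R2.T7 (singZ tupleCount Admissible)

/-- The digits `a < b` act on the set `X` of the vertices: an edge with the label `a` leads from `x` to `y` if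
`δ x a = some y` (at most one edge with the label `a` starts at `x`). The number of the edges from `x` to `y` equals the
number of the edges from `y` to `x`, and at least two edges start at every vertex. The graph may be infinite. -/
structure Graph {X : Type} (b : ℕ) (δ : X → ℕ → Option X) : Prop where
  symm : ∀ x y : X, {a : ℕ | a < b ∧ δ x a = some y}.ncard = {a : ℕ | a < b ∧ δ y a = some x}.ncard
  two : ∀ x : X, ∃ a a' : ℕ, a < a' ∧ a' < b ∧ (δ x a).isSome ∧ (δ x a').isSome

open Classical in
/-- The integers `v < b ^ k` whose `k` digits in base `b`, from the most significant to the least significant one (the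
digit number `i`, `0 ≤ i < k`, from the left is `v / b ^ (k - 1 - i) % b`), are the labels of a walk from `x` to `y`. -/
noncomputable def walks {X : Type} (b : ℕ) (δ : X → ℕ → Option X) (k : ℕ) (x y : X) : Finset ℕ :=
  (range (b ^ k)).filter fun v =>
    ((List.range k).map fun i => v / b ^ (k - 1 - i) % b).foldl (fun s a => s.bind fun z => δ z a) (some x) = some y

/-- The formula of Hardy and Littlewood for the shifts `a 1, ..., a s` and the primes up to `N`: the
singular series converges, its sum `S` predicts the weighted number of prime tuples with an error of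
at most `N / log ^ U N`, and, if the shifts are admissible, `S` is positive and `S N / log ^ (s + 1) N`
predicts the number of prime tuples with a relative error of at most `ε`. -/
def Holds {s : ℕ} (ε : ℝ) (U N : ℕ) (a : Fin s → ℕ) : Prop :=
  ∃ S : ℝ, Filter.Tendsto (fun z => singZ (fun i => (a i : ℤ)) z) Filter.atTop (nhds S) ∧
    |tupleCount (fun i => (a i : ℤ)) N - S * N| ≤ (N : ℝ) / Real.log N ^ U ∧
    (Admissible (fun i => (a i : ℤ)) → 0 < S ∧
      |(primeTuples a N : ℝ) - S * (N / Real.log N ^ (s + 1))| ≤ ε * (S * (N / Real.log N ^ (s + 1))))

open Classical in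
/-- Let `s ≥ 1`. Let `δ i`, for `i < s`, be graphs whose edges are labelled with the digits in base `b i`, let `x i` be a
vertex, and let `ρ i > 0` be such that there are at most `ρ i ^ (2 n)` closed walks of the length `2 n` at `x i`, for all
`n`. Let `D`, `κ i ≥ 1`, `B`, `U` and `ε > 0` be fixed. Let `N` be large, let the numbers `k i` satisfy
`N / B ≤ b i ^ k i ≤ B N`, let `y i` be vertices such that the number of the walks of the length `k i` from `x i` to `y i`
is at least `ρ i ^ (k i) / (k i) ^ D`, and let `0 ≤ c i ≤ B N` be arbitrary integers. Then the formula of Hardy and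
Littlewood for the primes `p ≤ N` and the tuple `p, p + c 1 + κ 1 * v 1, ..., p + c s + κ s * v s` holds for all the
vectors `(v 1, ..., v s)` such that the `k i` digits of `v i` in base `b i` are the labels of a walk from `x i` to `y i`,
with the exception of a proportion of at most `1 / log ^ U N` of these vectors.

(For a group of polynomial growth, a free group, or any group with the property of rapid decay, there are at least
`ρ ^ k / k ^ D` closed walks of every even length `k` in the Cayley graph, where `ρ` is its spectral radius.) -/
theorem result (s : ℕ) (hs : 1 ≤ s) (b : Fin s → ℕ) (X : Fin s → Type) (δ : ∀ i, X i → ℕ → Option (X i))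
    (hG : ∀ i, Graph (b i) (δ i)) (x : ∀ i, X i) (ρ : Fin s → ℝ) (hρ : ∀ i, 0 < ρ i)
    (hR : ∀ i, ∀ n : ℕ, ((walks (b i) (δ i) (2 * n) (x i) (x i)).card : ℝ) ≤ ρ i ^ (2 * n))
    (D : ℕ) (κ : Fin s → ℕ) (hκ : ∀ i, 1 ≤ κ i) (B U : ℕ) (ε : ℝ) (hε : 0 < ε) :
    ∃ N₀ : ℕ, ∀ N, N₀ ≤ N → ∀ k : Fin s → ℕ, (∀ i, b i ^ k i ≤ B * N ∧ N ≤ B * b i ^ k i) →
      ∀ y : ∀ i, X i, (∀ i, ρ i ^ k i / (k i : ℝ) ^ D ≤ (walks (b i) (δ i) (k i) (x i) (y i)).card) →
      ∀ c : Fin s → ℕ, (∀ i, c i ≤ B * N) →
      (((Fintype.piFinset fun i => walks (b i) (δ i) (k i) (x i) (y i)).filter fun v =>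
        ¬ Holds ε U N (fun i => c i + κ i * v i)).card : ℝ) ≤
        (Fintype.piFinset fun i => walks (b i) (δ i) (k i) (x i) (y i)).card / Real.log N ^ U := by
  obtain ⟨N₀, h⟩ := Pool.Agent.N625.GW.w_tuples s hs b X δ (fun i => ⟨(hG i).symm, (hG i).two⟩) x ρ hρ hR D κ hκ B U ε hε
  refine ⟨N₀ + B + 1, fun N hN k hk y hy c hc => ?_⟩
  refine h N (by omega) k hk y (fun i => ?_) c hc
  have h1 := hy i
  have hk0 : 0 < k i := by
    by_contra h0
    have h2 : k i = 0 := by omega
    have h3 := (hk i).2
    rw [h2, pow_zero, mul_one] at h3
    omega
  have hk1 : (0 : ℝ) < (k i : ℝ) ^ D := by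
    have : (0 : ℝ) < k i := by exact_mod_cast hk0
    positivity
  rw [div_le_iff₀ hk1, mul_comm] at h1
  exact h1

end Pool.Agent.Results.MP_e87c7d_nt.WalkShifts
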